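import Mathlib

set_option autoImplicit false

namespace Pool.Agent.H.MP_f02a84_al

open CategoryTheory

/-- edges of the Squier complex from the word x to the word y -/
structure Edge {A : Type} (R : Set (List A × List A)) (x y : List A) where
  /-- left context -/
  l : List A
  /-- replaced word -/
  u : List A
  /-- new word -/
  v : List A
  /-- right context -/
  r : List A
  rel : (u, v) ∈ R ∨ (v, u) ∈ R
  src : x = l ++ u ++ r
  tgt : y = l ++ v ++ r

/-- vertices of the Squier complex -/
def Vx {A : Type} (_R : Set (List A × List A)) : Type := List A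

instance {A : Type} (R : Set (List A × List A)) : Quiver (Vx R) := ⟨fun x y => Edge R x y⟩

/-- elementary homotopies of edge paths -/
inductive Htp {A : Type} (R : Set (List A × List A)) :
    ∀ ⦃x y : Vx R⦄, Quiver.Path x y → Quiver.Path x y → Prop
  | rev {x y : Vx R} (e : Edge R x y) (e' : Edge R y x) :
      (e'.l, e'.u, e'.v, e'.r) = (e.l, e.v, e.u, e.r) →
      Htp R ((Quiver.Path.nil.cons e).cons e') Quiver.Path.nil
  | sq {x y y' z : Vx R} (e₁ : Edge R x y) (e₂ : Edge R y z) (e₃ : Edge R x y') (e₄ : Edge R y' z)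
      (a u v b p q c : List A) :
      (e₁.l, e₁.u, e₁.v, e₁.r) = (a, u, v, b ++ p ++ c) →
      (e₂.l, e₂.u, e₂.v, e₂.r) = (a ++ v ++ b, p, q, c) →
      (e₃.l, e₃.u, e₃.v, e₃.r) = (a ++ u ++ b, p, q, c) →
      (e₄.l, e₄.u, e₄.v, e₄.r) = (a, u, v, b ++ q ++ c) →
      Htp R ((Quiver.Path.nil.cons e₁).cons e₂) ((Quiver.Path.nil.cons e₃).cons e₄)

/-- the diagram group: the vertex group at w of the edge path groupoid of the Squier complex -/
abbrev DiagramGroup {A : Type} (R : Set (List A × List A)) (w : List A) : Type :=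
  Aut ((CategoryTheory.Quotient.functor (C := Paths (Vx R)) (Htp R)).obj w)

/-- the group F of Thompson -/
abbrev ThompsonF : Type :=
  PresentedGroup {r : FreeGroup ℕ | ∃ i j, i < j ∧
    r = (FreeGroup.of i)⁻¹ * FreeGroup.of j * FreeGroup.of i * (FreeGroup.of (j + 1))⁻¹}

end Pool.Agent.H.MP_f02a84_al
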