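import Mathlib
import Pool.Agent.H.MP_f02a84_al.Defs

set_option autoImplicit false

namespace Pool.Agent.H.MP_f02a84_al

theorem free_center {α : Type} {a b : α} (hab : a ≠ b) {z : FreeGroup α}
    (hz : ∀ c, Commute (FreeGroup.of c) z) : z = 1 := by
  classical
  by_contra h
  obtain ⟨s, W, hW⟩ := List.exists_cons_of_ne_nil (mt FreeGroup.toWord_eq_nil_iff.1 h)
  obtain ⟨c, hc⟩ : ∃ c, c ≠ s.1 := by
    by_cases h : a = s.1
    · exact ⟨b, fun h' => hab (h.trans h'.symm)⟩
    · exact ⟨a, h⟩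
  have h1 : (FreeGroup.of c * z).toWord = (c, true) :: z.toWord := by
    rw [FreeGroup.toWord_mul, FreeGroup.toWord_of, List.singleton_append, FreeGroup.reduce.cons,
      FreeGroup.reduce_toWord, hW]
    simp [hc]
  have h2 := FreeGroup.toWord_mul_sublist z (FreeGroup.of c)
  rw [← (hz c).eq, h1, FreeGroup.toWord_of] at h2
  have h3 := h2.eq_of_length (by simp)
  rw [hW] at h3
  simp only [List.cons_append, List.cons.injEq] at h3
  exact hc (congrArg Prod.fst h3.1)

theorem free_comm {α : Type} [Subsingleton α] (x y : FreeGroup α) : Commute x y := by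
  induction x using FreeGroup.induction_on with
  | C1 => exact Commute.one_left _
  | of a =>
    induction y using FreeGroup.induction_on with
    | C1 => exact Commute.one_right _
    | of b => rw [Subsingleton.elim a b]
    | inv_of b h => exact h.inv_right
    | mul x y h1 h2 => exact h1.mul_right h2
  | inv_of a h => exact h.inv_left
  | mul x y h1 h2 => exact h1.mul_left h2

theorem free_ct {α : Type} {g u v : FreeGroup α} (hg : g ≠ 1) (hu : Commute g u)
    (hv : Commute g v) : Commute u v := by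
  let H := Subgroup.centralizer ({g} : Set (FreeGroup α))
  have mem : ∀ x, Commute g x → x ∈ H := fun x hx => by
    rw [Subgroup.mem_centralizer_singleton_iff]
    exact hx.symm.eq
  let e := IsFreeGroup.toFreeGroup H
  by_cases h : Subsingleton (IsFreeGroup.Generators H)
  · have := (free_comm (e ⟨u, mem u hu⟩) (e ⟨v, mem v hv⟩)).map e.symm
    simp only [MulEquiv.symm_apply_apply] at this
    exact congrArg Subtype.val this.eq
  · rw [not_subsingleton_iff_nontrivial] at h
    obtain ⟨a, b, hab⟩ := exists_pair_ne (IsFreeGroup.Generators H)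
    have : e ⟨g, mem g (Commute.refl g)⟩ = 1 := free_center hab fun c => by
      have h1 : Commute (e.symm (FreeGroup.of c)) ⟨g, mem g (Commute.refl g)⟩ :=
        Subtype.ext (Subgroup.mem_centralizer_singleton_iff.1 (e.symm (FreeGroup.of c)).2)
      simpa using h1.map e
    exact absurd (congrArg Subtype.val (e.map_eq_one_iff.1 this)) hg

theorem free_qi {α : Type} {g h t : FreeGroup α} (h1 : Commute g (t⁻¹ * h * t))
    (h2 : Commute g (t⁻¹ * (t⁻¹ * h * t) * t)) : Commute g h := by
  by_cases hg : g = 1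
  · simp [hg]
  by_cases hh : h = 1
  · simp [hh]
  have h3 := (free_ct hg h1 h2).map (MulAut.conj t)
  simp only [MulAut.conj_apply, mul_assoc, mul_inv_cancel, mul_one, mul_inv_cancel_left] at h3
  refine free_ct (g := t⁻¹ * h * t) ?_ h1.symm (by simpa [mul_assoc] using h3.symm)
  intro h4
  apply hh
  calc h = t * (t⁻¹ * h * t) * t⁻¹ := by group
    _ = 1 := by rw [h4]; group

theorem lin {G K : Type*} [Group G] [Field K] {n : ℕ} (ρ : G →* GL (Fin n) K) {g h t : G}
    (H : ∀ k : ℕ, Commute g ((t ^ (k + 1))⁻¹ * h * t ^ (k + 1))) : Commute (ρ g) (ρ h) := by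
  let T : Matrix (Fin n) (Fin n) K →ₗ[K] Matrix (Fin n) (Fin n) K :=
    (LinearMap.mulLeft K ((ρ t⁻¹ : GL (Fin n) K) : Matrix (Fin n) (Fin n) K)).comp
      (LinearMap.mulRight K ((ρ t : GL (Fin n) K) : Matrix (Fin n) (Fin n) K))
  have hT : ∀ X, T X = (ρ t⁻¹).val * (X * (ρ t).val) := fun _ => rfl
  have Tinj : Function.Injective T := by
    intro X Y h
    exact (Units.mul_left_inj _).1 ((Units.mul_right_inj _).1 h)
  let W : Submodule K (Matrix (Fin n) (Fin n) K) :=
    { carrier := {X | ∀ k : ℕ, Commute (ρ g).val ((ρ (t ^ k)⁻¹).val * X * (ρ (t ^ k)).val)}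
      add_mem' := fun ha hb k => by simpa [mul_add, add_mul] using (ha k).add_right (hb k)
      zero_mem' := fun k => by simp
      smul_mem' := fun c X hX k => by simpa using (hX k).smul_right c }
  have hW : ∀ X ∈ W, T X ∈ W := fun X hX k => by
    have := hX (k + 1)
    simpa [hT, pow_succ', mul_assoc] using this
  have h0 : T (ρ h).val ∈ W := fun k => by
    have := ((H k).map ρ).map (Units.coeHom _)
    simpa [hT, pow_succ', mul_assoc] using this
  have hs : Function.Surjective (T.restrict hW) :=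
    LinearMap.injective_iff_surjective.1 fun X Y h => Subtype.ext (Tinj (congrArg Subtype.val h))
  obtain ⟨X, hX⟩ := hs ⟨_, h0⟩
  have : X.1 = (ρ h).val := Tinj (congrArg Subtype.val hX)
  have h1 := X.2 0
  rw [this] at h1
  exact Units.ext (by simpa using h1.eq)

theorem rf {G : Type*} [Group G] {g h t : G}
    (H : ∀ k : ℕ, Commute g ((t ^ (k + 1))⁻¹ * h * t ^ (k + 1))) (S : Subgroup G)
    [S.FiniteIndex] : g * h * g⁻¹ * h⁻¹ ∈ S := by
  refine S.normalCore_le ?_
  rw [← QuotientGroup.eq_one_iff]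
  have := (H (orderOf (QuotientGroup.mk' S.normalCore t) - 1)).map
    (QuotientGroup.mk' S.normalCore)
  rw [Nat.sub_add_cancel (orderOf_pos _), map_mul, map_mul, map_inv, map_pow,
    pow_orderOf_eq_one, inv_one, one_mul, mul_one] at this
  exact commutatorElement_eq_one_iff_commute.2 this

/-- piecewise linear maps -/
def pl (i : ℕ) : Equiv.Perm ℚ where
  toFun s := if s ≤ i then s else if s ≤ i + 2 then (s + i) / 2 else s - 1
  invFun s := if s ≤ i then s else if s ≤ i + 1 then 2 * s - i else s + 1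
  left_inv s := by
    dsimp only
    split_ifs <;> linarith
  right_inv s := by
    dsimp only
    split_ifs <;> linarith

/-- generators -/
abbrev X (i : ℕ) : ThompsonF := PresentedGroup.of i

theorem X_rel {i j : ℕ} (h : i < j) : (X i)⁻¹ * X j * X i = X (j + 1) := by
  rw [← mul_inv_eq_one]
  exact PresentedGroup.one_of_mem ⟨i, j, h, rfl⟩

/-- representation -/
def rep : ThompsonF →* Equiv.Perm ℚ := PresentedGroup.toGroup (f := pl) (by
  rintro _ ⟨i, j, h, rfl⟩
  simp only [map_mul, map_inv, FreeGroup.lift_apply_of]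
  rw [mul_inv_eq_one, mul_assoc, inv_mul_eq_iff_eq_mul]
  ext s
  have : (i : ℚ) + 1 ≤ j := by exact_mod_cast h
  simp only [pl, Equiv.Perm.mul_apply, Equiv.coe_fn_mk, Nat.cast_add, Nat.cast_one]
  split_ifs <;> linarith)

theorem thompson : ∃ g h t : ThompsonF, ¬ Commute g h ∧ Commute g (t⁻¹ * h * t) ∧
    Commute g (t⁻¹ * (t⁻¹ * h * t) * t) ∧
    ∀ (C : Type) [CommGroup C] (f : ThompsonF →* C), f g = 1 ∧ f h = 1 ∧ f t = 1 := by
  have c1 : ∀ i j, i + 1 < j → Commute (X i * (X (i + 1))⁻¹) (X j) := by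
    intro i j h
    have e1 := X_rel (show i < j by omega)
    have e2 := X_rel h
    rw [← e2] at e1
    calc X i * (X (i + 1))⁻¹ * X j = X i * ((X (i + 1))⁻¹ * X j * X (i + 1)) * (X (i + 1))⁻¹ := by
          group
      _ = _ := by rw [← e1]; group
  have c2 : ∀ j, 1 < j → j + 2 < 9 →
      (X 1 * (X 9)⁻¹)⁻¹ * (X j * (X (j + 1))⁻¹) * (X 1 * (X 9)⁻¹) =
        X (j + 1) * (X (j + 1 + 1))⁻¹ := by
    intro j h1 h2
    calc _ = X 9 * (((X 1)⁻¹ * X j * X 1) * ((X 1)⁻¹ * X (j + 1) * X 1)⁻¹) * (X 9)⁻¹ := by group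
      _ = _ := by
        rw [X_rel h1, X_rel (show 1 < j + 1 by omega), ← (c1 (j + 1) 9 h2).eq]
        group
  refine ⟨X 2 * (X 3)⁻¹, X 3 * (X 4)⁻¹, X 1 * (X 9)⁻¹, fun h => ?_, ?_, ?_, fun C _ f => ?_⟩
  · have := congrArg (fun σ : Equiv.Perm ℚ => σ 4) (h.map rep).eq
    simp only [rep, map_mul, map_inv, PresentedGroup.toGroup.of, Equiv.Perm.mul_apply] at this
    norm_num [pl, Equiv.Perm.inv_def] at this
  · rw [c2 3 (by omega) (by omega)]
    exact (c1 2 4 (by omega)).mul_right (c1 2 5 (by omega)).inv_right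
  · rw [c2 3 (by omega) (by omega), c2 4 (by omega) (by omega)]
    exact (c1 2 5 (by omega)).mul_right (c1 2 6 (by omega)).inv_right
  · have : ∀ j, f (X (j + 1)) = f (X 1) := by
      intro j
      induction j with
      | zero => rfl
      | succ j ih =>
        rw [← X_rel (show 0 < j + 1 by omega), map_mul, map_mul, map_inv, ih,
          inv_mul_cancel_comm]
    simp [this]

open Multiplicative in
theorem wr_inj {G K : Type} [Group G] [Group K] (t : G) (κ : K →* G)
    (hc : ∀ (n : ℕ) (x y : K), Commute ((t ^ (n + 1))⁻¹ * κ x * t ^ (n + 1)) (κ y))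
    (hg : Subgroup.closure ({t} ∪ Set.range κ) = ⊤)
    (Φ : G →* RegularWreathProduct K (Multiplicative ℤ)) (h1 : Φ t = ⟨1, ofAdd (-1)⟩)
    (h2 : ∀ x, Φ (κ x) = ⟨Pi.mulSingle (ofAdd 0) x, 1⟩) : Function.Injective Φ := by
  let κ' : ℤ → K →* G := fun n => (MulAut.conj (t ^ n)⁻¹).toMonoidHom.comp κ
  have hκ : ∀ n x, κ' n x = (t ^ n)⁻¹ * κ x * t ^ n := fun n x => by
    change (t ^ n)⁻¹ * κ x * ((t ^ n)⁻¹)⁻¹ = _
    rw [inv_inv]
  have cm : ∀ i j x y, i ≠ j → Commute (κ' i x) (κ' j y) := by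
    have : ∀ i j x y, j < i → Commute (κ' i x) (κ' j y) := by
      intro i j x y h
      obtain ⟨n, rfl⟩ : ∃ n : ℕ, i = (n + 1 : ℕ) + j := ⟨(i - j - 1).toNat, by omega⟩
      have := (hc n x y).map (MulAut.conj (t ^ j)⁻¹)
      simp only [MulAut.conj_apply, inv_inv] at this
      rw [hκ, hκ, zpow_add, zpow_natCast, mul_inv_rev]
      simpa only [mul_assoc] using this
    intro i j x y h
    rcases lt_or_gt_of_ne h with h | h
    · exact (this _ _ _ _ h).symm
    · exact this _ _ _ _ h
  have ht : ∀ n : ℤ, Φ (t ^ n) = ⟨1, ofAdd (-n)⟩ := by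
    intro n
    have : Φ t = RegularWreathProduct.inl (ofAdd (-1)) := h1
    rw [map_zpow, this, ← map_zpow, ← ofAdd_zsmul, show n • (-1 : ℤ) = -n by simp]
    rfl
  have hΦ : ∀ n x, Φ (κ' n x) = ⟨Pi.mulSingle (ofAdd n) x, 1⟩ := by
    intro n x
    rw [hκ, map_mul, map_mul, map_inv, ht, h2]
    ext y
    · obtain ⟨y, rfl⟩ := ofAdd.surjective y
      have : (1 = ofAdd (-n + y)) ↔ n = y := by
        rw [eq_comm, ofAdd_eq_one]
        omega
      simp [Pi.mulSingle_apply, ← ofAdd_add, ← ofAdd_neg, eq_comm, this]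
    · simp
  let N : Finset ℤ → Subgroup G := fun S => Subgroup.closure {g | ∃ i ∈ S, ∃ x, g = κ' i x}
  have mono : ∀ S T, S ⊆ T → N S ≤ N T := fun S T h =>
    Subgroup.closure_mono fun _ ⟨i, hi, k⟩ => ⟨i, h hi, k⟩
  have n1 : ∀ S j, j ∉ S → ∀ g ∈ N S, (Φ g).right = 1 ∧ (Φ g).left (ofAdd j) = 1 ∧
      ∀ x, Commute (κ' j x) g := by
    intro S j hj g hg
    induction hg using Subgroup.closure_induction with
    | mem g hg =>
      obtain ⟨i, hi, x, rfl⟩ := hg
      have : j ≠ i := fun h => hj (h ▸ hi)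
      exact ⟨by rw [hΦ], by simp [hΦ, this], fun y => cm _ _ _ _ this⟩
    | one => simp
    | mul a b _ _ ha hb => exact ⟨by simp [ha.1, hb.1], by simp [ha.1, ha.2.1, hb.2.1],
        fun x => (ha.2.2 x).mul_right (hb.2.2 x)⟩
    | inv a _ ha => exact ⟨by simp [ha.1], by simp [ha.1, ha.2.1], fun x => (ha.2.2 x).inv_right⟩
  have n2 : ∀ S, ∀ g ∈ N S, Φ g = 1 → g = 1 := by
    intro S
    induction S using Finset.induction_on with
    | empty => intro g hg _; simpa [N] using hg
    | insert j S hj ih =>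
      intro g hg h
      have : ∃ x, ∃ g' ∈ N S, g = κ' j x * g' := by
        clear h
        induction hg using Subgroup.closure_induction with
        | mem g hg =>
          obtain ⟨i, hi, x, rfl⟩ := hg
          rcases Finset.mem_insert.1 hi with rfl | hi
          · exact ⟨x, 1, one_mem _, by simp⟩
          · exact ⟨1, _, Subgroup.subset_closure ⟨i, hi, x, rfl⟩, by simp⟩
        | one => exact ⟨1, 1, one_mem _, by simp⟩
        | mul a b _ _ ha hb =>
          obtain ⟨x, a, ha, rfl⟩ := ha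
          obtain ⟨y, b, hb, rfl⟩ := hb
          refine ⟨x * y, a * b, mul_mem ha hb, ?_⟩
          rw [map_mul, mul_assoc, mul_assoc, ← mul_assoc a, ← ((n1 S j hj a ha).2.2 y).eq,
            mul_assoc]
        | inv a _ ha =>
          obtain ⟨x, a, ha, rfl⟩ := ha
          refine ⟨x⁻¹, a⁻¹, inv_mem ha, ?_⟩
          rw [((n1 S j hj a ha).2.2 x).eq, mul_inv_rev, map_inv]
      obtain ⟨x, g', hg', rfl⟩ := this
      have e := congrArg (fun z => z.left (ofAdd j)) h
      simp [hΦ, (n1 S j hj g' hg').2.1] at e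
      subst e
      simp only [map_one, one_mul] at h ⊢
      exact ih g' hg' h
  have n3 : ∀ S (m : ℤ), ∀ g ∈ N S, t ^ m * g * (t ^ m)⁻¹ ∈ N (S.image (· - m)) := by
    intro S m g hg
    induction hg using Subgroup.closure_induction with
    | mem g hg =>
      obtain ⟨i, hi, x, rfl⟩ := hg
      refine Subgroup.subset_closure ⟨i - m, Finset.mem_image_of_mem _ hi, x, ?_⟩
      simp only [hκ]
      group
    | one => simp
    | mul a b _ _ ha hb => simpa [mul_assoc] using mul_mem ha hb
    | inv a _ ha => simpa [mul_assoc] using inv_mem ha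
  have n4 : ∀ g : G, ∃ S m, ∃ ν ∈ N S, g = ν * t ^ (m : ℤ) := by
    intro g
    have hg' : g ∈ Subgroup.closure ({t} ∪ Set.range κ) := hg ▸ Subgroup.mem_top g
    induction hg' using Subgroup.closure_induction with
    | mem g hg =>
      rcases hg with rfl | ⟨x, rfl⟩
      · exact ⟨∅, 1, 1, one_mem _, by simp⟩
      · exact ⟨{0}, 0, _, Subgroup.subset_closure ⟨0, by simp, x, rfl⟩, by simp [hκ]⟩
    | one => exact ⟨∅, 0, 1, one_mem _, by simp⟩
    | mul a b _ _ ha hb =>
      obtain ⟨S, m, a, ha, rfl⟩ := ha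
      obtain ⟨T, n, b, hb, rfl⟩ := hb
      exact ⟨S ∪ T.image (· - m), m + n, _, mul_mem (mono _ _ Finset.subset_union_left ha)
        (mono _ _ Finset.subset_union_right (n3 T m b hb)), by group⟩
    | inv a _ ha =>
      obtain ⟨S, m, a, ha, rfl⟩ := ha
      exact ⟨_, -m, _, n3 S (-m) _ (inv_mem ha), by group⟩
  rw [injective_iff_map_eq_one]
  intro g h
  obtain ⟨S, m, ν, hν, rfl⟩ := n4 g
  obtain ⟨j, hj⟩ := Infinite.exists_notMem_finset S
  have e := congrArg RegularWreathProduct.right h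
  simp [ht, (n1 S j hj ν hν).1, -map_zpow] at e
  subst e
  simp only [zpow_zero, mul_one] at h ⊢
  exact n2 S ν hν h

end Pool.Agent.H.MP_f02a84_al
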