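import Mathlib
import Pool.Agent.H.MP_f02a84_al.Defs

set_option autoImplicit false

namespace Pool.Agent.H.MP_f02a84_al

open CategoryTheory

variable {A : Type} (R : Set (List A × List A))

/-- symmetric rules -/
def Ru (u v : List A) : Prop := (u, v) ∈ R ∨ (v, u) ∈ R

/-- compatible edge labellings -/
structure Lab {G : Type} [Group G] (E : List A → List A → List A → List A → G) : Prop where
  rev : ∀ l u v r, Ru R u v → E l u v r * E l v u r = 1
  sq : ∀ a u v b p q c, Ru R u v → Ru R p q →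
    E a u v (b ++ p ++ c) * E (a ++ v ++ b) p q c = E (a ++ u ++ b) p q c * E a u v (b ++ q ++ c)

/-- the quotient category -/
abbrev Cat' := CategoryTheory.Quotient (C := Paths (Vx R)) (Htp R)

/-- projection -/
abbrev pr : Paths (Vx R) ⥤ Cat' R := CategoryTheory.Quotient.functor (C := Paths (Vx R)) (Htp R)

variable {R}

/-- label of a path -/
def ev {G : Type} [Group G] (E : List A → List A → List A → List A → G) :
    ∀ {x y : Vx R}, Quiver.Path x y → G
  | _, _, .nil => 1
  | _, _, .cons p e => ev E p * E e.l e.u e.v e.r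

theorem ev_comp {G : Type} [Group G] (E : List A → List A → List A → List A → G)
    {x y z : Vx R} (p : Quiver.Path x y) (q : Quiver.Path y z) :
    ev E (p.comp q) = ev E p * ev E q := by
  induction q with
  | nil => simp [ev]
  | cons q e ih => simp [ev, ih, mul_assoc]

/-- label of a homotopy class -/
def ev' {G : Type} [Group G] {E : List A → List A → List A → List A → G} (h : Lab R E)
    {x y : Cat' R} (f : x ⟶ y) : G :=
  Quot.lift (ev E) (by
    rintro _ _ ⟨a, b, f, m1, m2, g, k⟩
    change ev E (f.comp (m1.comp g)) = ev E (f.comp (m2.comp g))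
    simp only [ev_comp]
    congr 2
    cases k with
    | rev e e' k =>
      simp only [Prod.mk.injEq] at k
      simp only [ev, k, one_mul]
      exact h.rev _ _ _ _ e.rel
    | sq e1 e2 e3 e4 a u v b p q c k1 k2 k3 k4 =>
      simp only [Prod.mk.injEq] at k1 k2 k3 k4
      have r1 := e1.rel
      have r2 := e2.rel
      simp only [k1, k2] at r1 r2
      simp only [ev, k1, k2, k3, k4, one_mul]
      exact h.sq _ _ _ _ _ _ _ r1 r2) f

theorem ev'_comp {G : Type} [Group G] {E : List A → List A → List A → List A → G} (h : Lab R E)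
    {x y z : Cat' R} (f : x ⟶ y) (g : y ⟶ z) : ev' h (f ≫ g) = ev' h f * ev' h g := by
  obtain ⟨f⟩ := f
  obtain ⟨g⟩ := g
  exact ev_comp E f g

theorem ev'_id {G : Type} [Group G] {E : List A → List A → List A → List A → G} (h : Lab R E)
    (x : Cat' R) : ev' h (𝟙 x) = 1 := by
  change ev E Quiver.Path.nil = 1
  simp [ev]

/-- reversed edge -/
def Edge.symm {x y : List A} (e : Edge R x y) : Edge R y x :=
  ⟨e.l, e.v, e.u, e.r, e.rel.symm, e.tgt, e.src⟩

/-- class of an edge -/
def ed {x y : Vx R} (e : Edge R x y) : (pr R).obj x ⟶ (pr R).obj y :=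
  (pr R).map (Quiver.Path.nil.cons e)

theorem ed_rev {x y : Vx R} (e : Edge R x y) : ed e ≫ ed e.symm = 𝟙 _ :=
  CategoryTheory.Quotient.sound (C := Paths (Vx R)) (Htp R) (Htp.rev e e.symm rfl)

theorem iso_all {x y : Cat' R} (f : x ⟶ y) : IsIso f := by
  obtain ⟨x⟩ := x
  obtain ⟨y⟩ := y
  obtain ⟨p⟩ := f
  have key : ∀ (y : Vx R) (p : Quiver.Path (V := Vx R) x y), IsIso ((pr R).map p) := by
    intro y p
    induction p with
    | nil => exact IsIso.id _
    | cons p e ih =>
      have : IsIso (ed e) := ⟨ed e.symm, ed_rev e, ed_rev e.symm⟩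
      exact @IsIso.comp_isIso _ _ _ _ _ ((pr R).map p) (ed e) ih this
  exact key y p

theorem univ (w : List A) : ∃ (E : List A → List A → List A → List A → DiagramGroup R w)
    (Re : List A → Prop), Lab R E ∧ Re w ∧
    (∀ l u v r, Ru R u v → Re (l ++ u ++ r) → Re (l ++ v ++ r)) ∧
    (∀ Q : List A → DiagramGroup R w → Prop, Q w 1 →
      (∀ l u v r g, Ru R u v → Q (l ++ u ++ r) g → Q (l ++ v ++ r) (g * E l u v r)) →
      ∀ g, Q w g) ∧
    ∀ (G : Type) [Group G] (E0 : List A → List A → List A → List A → G), Lab R E0 →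
      ∃ (Φ : DiagramGroup R w →* G) (c : List A → G), ∀ l u v r, Ru R u v → Re (l ++ u ++ r) →
        Φ (E l u v r) = c (l ++ u ++ r) * E0 l u v r * (c (l ++ v ++ r))⁻¹ := by
  classical
  let Re : Cat' R → Prop := fun x => Nonempty ((pr R).obj w ≅ x)
  have Rs : ∀ {x y : Cat' R} (_ : x ⟶ y), Re x → Re y := fun f ⟨i⟩ =>
    have := iso_all f
    ⟨i.trans (asIso f)⟩
  let br : ∀ {x y : Cat' R} (_ : x ⟶ y), DiagramGroup R w := fun {x y} f =>
    if h : Re x then
      have := iso_all f
      (h.some.trans ((asIso f).trans (Rs f h).some.symm)).symm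
    else 1
  have br_comp : ∀ {x y z : Cat' R} (f : x ⟶ y) (g : y ⟶ z), br (f ≫ g) = br f * br g := by
    intro x y z f g
    by_cases h : Re x
    · have := iso_all f
      have := iso_all g
      simp only [br, dif_pos h, dif_pos (Rs f h)]
      ext
      simp [Aut.Aut_mul_def]
    · have := iso_all f
      have h' : ¬ Re y := fun h' => h (Rs (inv f) h')
      simp only [br, dif_neg h, dif_neg h', mul_one]
  have br_id : ∀ x : Cat' R, br (𝟙 x) = 1 := fun x => by
    have := br_comp (𝟙 x) (𝟙 x)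
    rw [Category.comp_id] at this
    exact left_eq_mul.1 this
  let E : List A → List A → List A → List A → DiagramGroup R w := fun l u v r =>
    if h : Ru R u v then br (ed (⟨l, u, v, r, h, rfl, rfl⟩ : Edge R _ _)) else 1
  have hE : ∀ {x y : Vx R} (e : Edge R x y), br (ed e) = E e.l e.u e.v e.r := by
    rintro x y ⟨l, u, v, r, h, rfl, rfl⟩
    simp only [E, dif_pos (show Ru R u v from h)]
  refine ⟨E, fun x => Re ((pr R).obj x), ⟨?_, ?_⟩, ⟨Iso.refl _⟩, ?_, ?_, ?_⟩
  · intro l u v r h
    let e : Edge R _ _ := ⟨l, u, v, r, h, rfl, rfl⟩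
    have := br_comp (ed e) (ed e.symm)
    rw [ed_rev, br_id, hE, hE] at this
    exact this.symm
  · intro a u v b p q c h1 h2
    let e1 : Edge R (a ++ u ++ b ++ p ++ c) (a ++ v ++ b ++ p ++ c) :=
      ⟨a, u, v, b ++ p ++ c, h1, by simp, by simp⟩
    let e2 : Edge R (a ++ v ++ b ++ p ++ c) (a ++ v ++ b ++ q ++ c) :=
      ⟨a ++ v ++ b, p, q, c, h2, rfl, rfl⟩
    let e3 : Edge R (a ++ u ++ b ++ p ++ c) (a ++ u ++ b ++ q ++ c) :=
      ⟨a ++ u ++ b, p, q, c, h2, rfl, rfl⟩
    let e4 : Edge R (a ++ u ++ b ++ q ++ c) (a ++ v ++ b ++ q ++ c) :=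
      ⟨a, u, v, b ++ q ++ c, h1, by simp, by simp⟩
    have : ed e1 ≫ ed e2 = ed e3 ≫ ed e4 :=
      CategoryTheory.Quotient.sound (C := Paths (Vx R)) (Htp R)
        (Htp.sq e1 e2 e3 e4 a u v b p q c rfl rfl rfl rfl)
    have := congrArg br this
    rwa [br_comp, br_comp, hE, hE, hE, hE] at this
  · intro l u v r h
    exact Rs (ed (⟨l, u, v, r, h, rfl, rfl⟩ : Edge R _ _))
  · intro Q h1 h2 g
    have key : ∀ (x : Vx R) (p : Quiver.Path (V := Vx R) w x), Q x (br ((pr R).map p)) := by
      intro x p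
      induction p with
      | nil =>
        have : br ((pr R).map (Quiver.Path.nil (V := Vx R) (a := w))) = 1 := br_id _
        rwa [this]
      | cons p e ih =>
        have : br ((pr R).map (p.cons e)) = br ((pr R).map p) * br (ed e) :=
          br_comp ((pr R).map p) (ed e)
        rw [this, hE]
        obtain ⟨l, u, v, r, h, rfl, rfl⟩ := e
        exact h2 _ _ _ _ _ h ih
    have hw : Re ((pr R).obj w) := ⟨Iso.refl _⟩
    obtain ⟨p, hp⟩ := (pr R).map_surjective (hw.some.inv ≫ g.inv ≫ hw.some.hom)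
    have := key w p
    rw [hp] at this
    convert this
    simp only [br, dif_pos hw]
    ext
    simp
  · intro G _ E0 h0
    refine ⟨MonoidHom.mk' (fun g => (ev' h0 g.hom)⁻¹) ?_,
      fun x => if h : Re ((pr R).obj x) then ev' h0 h.some.hom else 1, ?_⟩
    · intro f g
      simp [Aut.Aut_mul_def, ev'_comp]
    · intro l u v r h hr
      let e : Edge R _ _ := ⟨l, u, v, r, h, rfl, rfl⟩
      have hr' := Rs (ed e) hr
      have e1 : ∀ {x y : Cat' R} (i : x ≅ y), ev' h0 i.inv = (ev' h0 i.hom)⁻¹ := fun i => by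
        rw [eq_inv_iff_mul_eq_one, ← ev'_comp, i.inv_hom_id, ev'_id]
      have e2 : ev' h0 (ed e) = E0 l u v r := by
        change ev E0 (Quiver.Path.nil.cons e) = _
        simp [ev, e]
      rw [← hE e]
      simp only [br, dif_pos hr, dif_pos hr', MonoidHom.mk'_apply, Iso.symm_hom, e1, inv_inv,
        Iso.trans_hom, ev'_comp, asIso_hom, e2, mul_assoc]

end Pool.Agent.H.MP_f02a84_al
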