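import Mathlib
import Pool.Agent.H.MP_f02a84_al.Univ
import Pool.Agent.H.MP_f02a84_al.Grp

set_option autoImplicit false

namespace Pool.Agent.H.MP_f02a84_al

open Multiplicative

theorem core {G : Type} [Group G] (A B : List (Fin 4) → G)
    (L : List (Fin 4) → Fin 4 → Fin 4 → List (Fin 4) → G)
    (L0 : ∀ u i v, L u i i v = 1)
    (S1 : ∀ u i j v, A (u ++ i :: v) * L (0 :: u) i j v = L u i j v * A (u ++ j :: v))
    (S2 : ∀ u i j v m n z, L u i j (v ++ m :: z) * L (u ++ j :: v) m n z =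
      L (u ++ i :: v) m n z * L u i j (v ++ n :: z))
    (S3 : ∀ u i j v, L u i j v * B (u ++ j :: v) = B (u ++ i :: v) * L u i j (v ++ [0]))
    (S4 : ∀ u, A u * B (0 :: u) = B u * A (u ++ [0])) :
    ∃ (c : List (Fin 4) → G) (t : G) (k : Fin 4 → Fin 4 → G), c [] = 1 ∧
      (∀ u, c (0 :: u) = c u * A u) ∧ (∀ u, c u * B u = t * c (u ++ [0])) ∧
      (∀ u i j v, c (u ++ i :: v) * L u i j v =
        (t ^ v.length)⁻¹ * k i j * t ^ v.length * c (u ++ j :: v)) ∧
      (∀ (n : ℕ) i j m l, Commute ((t ^ (n + 1))⁻¹ * k i j * t ^ (n + 1)) (k m l)) ∧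
      t = B [] * (A [])⁻¹ ∧ (∀ j, k 0 j = 1) ∧
      ∀ i j, k i j = A [] * L [] 0 i [] * L [] i j [] * (A [] * L [] 0 j [])⁻¹ := by
  let c : List (Fin 4) → G := fun u => u.rec 1 fun m u r => r * A u * L [] 0 m u
  have c0 : c [] = 1 := rfl
  have c1 : ∀ m u, c (m :: u) = c u * A u * L [] 0 m u := fun _ _ => rfl
  clear_value c
  let k : Fin 4 → Fin 4 → List (Fin 4) → G := fun i j v => c (i :: v) * L [] i j v * (c (j :: v))⁻¹
  have hk : ∀ i j v, k i j v = c (i :: v) * L [] i j v * (c (j :: v))⁻¹ := fun _ _ _ => rfl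
  clear_value k
  obtain ⟨t, ht⟩ : ∃ t, t = B [] * (A [])⁻¹ := ⟨_, rfl⟩
  have l1 : ∀ u i j v, c (u ++ i :: v) * L u i j v = k i j v * c (u ++ j :: v) := by
    intro u i j v
    induction u with
    | nil => simp [hk]
    | cons m u ih =>
      have a1 := S2 [] 0 m u i j v
      simp only [List.nil_append] at a1
      rw [List.cons_append, List.cons_append, c1, c1, mul_assoc, a1, ← mul_assoc,
        mul_assoc _ (A _), S1, ← mul_assoc, ih]
      simp only [mul_assoc]
  have l2 : ∀ u, c u * B u = t * c (u ++ [0]) := by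
    intro u
    induction u with
    | nil => simp [c0, c1, L0, ht]
    | cons m u ih =>
      have a1 := S3 [] 0 m u
      simp only [List.nil_append] at a1
      rw [List.cons_append, c1, c1, mul_assoc, a1, ← mul_assoc, mul_assoc _ (A _), S4,
        ← mul_assoc, ih]
      simp only [mul_assoc]
  have l3 : ∀ i j v m n z, k i j (v ++ m :: z) * k m n z = k m n z * k i j (v ++ n :: z) := by
    intro i j v m n z
    have a1 := S2 [] i j v m n z
    have a2 := l1 (j :: v) m n z
    have a3 := l1 (i :: v) m n z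
    simp only [List.nil_append, List.cons_append] at a1 a2 a3
    rw [← mul_inv_eq_iff_eq_mul] at a2 a3
    rw [hk i j, hk i j]
    conv_lhs => rw [← a2]
    conv_rhs => rw [← a3]
    simp only [mul_assoc, inv_mul_cancel_left]
    rw [← mul_assoc (L _ _ _ _), a1, mul_assoc]
  have k0 : ∀ m u, k 0 m u = 1 := fun m u => by simp [hk, c1, L0]
  have l4 : ∀ i j v, k i j v * t = t * k i j (v ++ [0]) := by
    intro i j v
    have a1 := S3 [] i j v
    have a2 := l2 (j :: v)
    have a3 := l2 (i :: v)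
    simp only [List.nil_append, List.cons_append] at a1 a2 a3
    rw [← mul_inv_eq_iff_eq_mul] at a2 a3
    rw [hk i j, hk i j]
    conv_lhs => rw [← a2]
    conv_rhs => rw [← a3]
    simp only [mul_assoc, inv_mul_cancel_left]
    rw [← mul_assoc (L _ _ _ _), a1, mul_assoc]
  have l5 : ∀ i j v, k i j v = (t ^ v.length)⁻¹ * k i j [] * t ^ v.length := by
    intro i j v
    induction v using List.reverseRecOn with
    | nil => simp
    | append_singleton v m ih =>
      have a1 := l3 i j v 0 m []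
      rw [k0, mul_one, one_mul] at a1
      have a2 := l4 i j v
      rw [a1, ih, ← inv_mul_eq_iff_eq_mul] at a2
      rw [← a2, List.length_append, List.length_singleton, pow_succ]
      group
  refine ⟨c, t, fun i j => k i j [], c0, fun u => by simp [c1, L0], l2,
    fun u i j v => by rw [l1, l5], fun n i j m l => ?_, ht, fun j => k0 j [],
    fun i j => by simp [hk, c1, c0]⟩
  have a1 := l3 i j (List.replicate n 0) m l []
  rw [l5 i j (_ ++ [m]), l5 i j (_ ++ [l])] at a1
  simp only [List.length_append, List.length_replicate, List.length_singleton] at a1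
  exact a1

/-- letters -/
inductive Ltr : Type
  | a : Ltr
  | b : Ltr
  | l : Fin 4 → Ltr
  deriving DecidableEq, Fintype

open Ltr

/-- relations -/
def RR : Set (List Ltr × List Ltr) :=
  {([a], [a, l 0]), ([b], [l 0, b])} ∪ {p | ∃ i j, i < j ∧ p = ([l i], [l j])}

theorem ru_iff (u v : List Ltr) : Ru RR u v ↔
    (u = [a] ∧ v = [a, l 0]) ∨ (u = [a, l 0] ∧ v = [a]) ∨ (u = [b] ∧ v = [l 0, b]) ∨
    (u = [l 0, b] ∧ v = [b]) ∨ ∃ i j, i ≠ j ∧ u = [l i] ∧ v = [l j] := by
  simp only [Ru, RR, Set.mem_union, Set.mem_insert_iff, Set.mem_singleton_iff, Prod.mk.injEq,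
    Set.mem_ofPred_eq]
  constructor
  · rintro (((h | h) | ⟨i, j, h, h'⟩) | ((h | h) | ⟨i, j, h, h'⟩))
    · exact Or.inl h
    · exact Or.inr (Or.inr (Or.inl h))
    · exact Or.inr (Or.inr (Or.inr (Or.inr ⟨i, j, h.ne, h'⟩)))
    · exact Or.inr (Or.inl h.symm)
    · exact Or.inr (Or.inr (Or.inr (Or.inl h.symm)))
    · exact Or.inr (Or.inr (Or.inr (Or.inr ⟨j, i, h.ne', h'.symm⟩)))
  · rintro (h | h | h | h | ⟨i, j, h, h'⟩)
    · exact Or.inl (Or.inl (Or.inl h))
    · exact Or.inr (Or.inl (Or.inl h.symm))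
    · exact Or.inl (Or.inl (Or.inr h))
    · exact Or.inr (Or.inl (Or.inr h.symm))
    · rcases lt_or_gt_of_ne h with h | h
      · exact Or.inl (Or.inr ⟨i, j, h, h'⟩)
      · exact Or.inr (Or.inr ⟨j, i, h, h'.symm⟩)

theorem parse0 (x : Ltr) (r : List Ltr) (u : List (Fin 4)) : ∀ s : List Ltr,
    s ++ x :: r = u.map l ++ [b] →
    (∃ u1 i u2, u = u1 ++ i :: u2 ∧ s = u1.map l ∧ x = l i ∧ r = u2.map l ++ [b]) ∨
      (s = u.map l ∧ x = b ∧ r = []) := by
  induction u with
  | nil =>
    intro s h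
    cases s with
    | nil => simpa using h
    | cons y s => simp at h
  | cons m u ih =>
    intro s h
    cases s with
    | nil =>
      simp only [List.nil_append, List.map_cons, List.cons_append, List.cons.injEq] at h
      exact Or.inl ⟨[], m, u, rfl, rfl, h.1, h.2⟩
    | cons y s =>
      simp only [List.map_cons, List.cons_append, List.cons.injEq] at h
      rcases ih s h.2 with ⟨u1, i, u2, rfl, rfl, rfl, rfl⟩ | ⟨rfl, rfl, rfl⟩
      · exact Or.inl ⟨m :: u1, i, u2, rfl, by simp [h.1], rfl, rfl⟩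
      · exact Or.inr ⟨by simp [h.1], rfl, rfl⟩

theorem parse {x : Ltr} {s r : List Ltr} {u : List (Fin 4)}
    (h : s ++ x :: r = a :: (u.map l ++ [b])) : (s = [] ∧ x = a ∧ r = u.map l ++ [b]) ∨
    (∃ u1 i u2, u = u1 ++ i :: u2 ∧ s = a :: u1.map l ∧ x = l i ∧ r = u2.map l ++ [b]) ∨
      (s = a :: u.map l ∧ x = b ∧ r = []) := by
  cases s with
  | nil => exact Or.inl (by simpa using h)
  | cons y s =>
    simp only [List.cons_append, List.cons.injEq] at h
    rcases parse0 x r u s h.2 with ⟨u1, i, u2, rfl, rfl, rfl, rfl⟩ | ⟨rfl, rfl, rfl⟩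
    · exact Or.inr (Or.inl ⟨u1, i, u2, rfl, by simp [h.1], rfl, rfl⟩)
    · exact Or.inr (Or.inr ⟨by simp [h.1], rfl, rfl⟩)

/-- guard -/
def gd : List Ltr → Bool
  | [] => false
  | .a :: _ => false
  | .b :: r => r.isEmpty
  | .l _ :: r => gd r

theorem gd_a (s r : List Ltr) : gd (s ++ a :: r) = false := by
  induction s with
  | nil => rfl
  | cons x s ih => cases x <;> simp [gd, ih]

theorem gd_b (s r : List Ltr) (x : Ltr) : gd (s ++ b :: x :: r) = false := by
  induction s with
  | nil => rfl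
  | cons x s ih => cases x <;> simp [gd, ih]

theorem gd_l (s r : List Ltr) (i : Fin 4) (hr : r ≠ []) : gd (s ++ l i :: r) = gd (s ++ r) := by
  induction s with
  | nil => rfl
  | cons x s ih =>
    obtain ⟨y, r, rfl⟩ := List.exists_cons_of_ne_nil hr
    cases x <;> cases s <;> simp_all [gd]

theorem gd_l' (s r : List Ltr) (i j : Fin 4) : gd (s ++ l i :: r) = gd (s ++ l j :: r) := by
  induction s with
  | nil => rfl
  | cons x s ih => cases x <;> cases s <;> simp_all [gd]

/-- free group -/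
abbrev K : Type := FreeGroup {p : Fin 4 × Fin 4 // 0 < p.1 ∧ p.1 < p.2}

/-- generators -/
def gen (i j : Fin 4) : K :=
  if h : 0 < i ∧ i < j then FreeGroup.of ⟨(i, j), h⟩
  else if h : 0 < j ∧ j < i then (FreeGroup.of ⟨(j, i), h⟩)⁻¹ else 1

theorem gen_rev (i j : Fin 4) : gen i j * gen j i = 1 := by
  unfold gen
  split_ifs <;> first | omega | simp

/-- wreath product -/
abbrev Wr : Type := RegularWreathProduct K (Multiplicative ℤ)

/-- base elements -/
def dl (n : ℤ) (x : K) : Wr := ⟨Pi.mulSingle (ofAdd n) x, 1⟩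

/-- shift -/
def t0 : Wr := ⟨1, ofAdd (-1)⟩

theorem dl_mul (n : ℤ) (x y : K) : dl n x * dl n y = dl n (x * y) := by
  ext <;> simp [dl, Pi.mulSingle_mul]

theorem dl_one (n : ℤ) : dl n 1 = 1 := by
  ext <;> simp [dl]

theorem dl_comm {m n : ℤ} (h : m ≠ n) (x y : K) : dl m x * dl n y = dl n y * dl m x := by
  ext z
  · simpa [dl] using congrFun (Pi.mulSingle_commute (f := fun _ : Multiplicative ℤ => K)
      (show ofAdd m ≠ ofAdd n by simpa using h) x y).eq z
  · simp [dl]

theorem dl_t (n : ℤ) (x : K) : dl n x * t0 = t0 * dl (n + 1) x := by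
  ext y
  · obtain ⟨y, rfl⟩ := ofAdd.surjective y
    simp [dl, t0, Pi.mulSingle_apply, ← ofAdd_add, ← ofAdd_neg, add_comm]
  · simp [dl, t0]

/-- the labelling -/
def E0 (_ u v r : List Ltr) : Wr :=
  match u, v with
  | [.l i], [.l j] => if gd r then dl (r.length - 1) (gen i j) else 1
  | [.b], [.l _, .b] => if r = [] then t0 else 1
  | [.l _, .b], [.b] => if r = [] then t0⁻¹ else 1
  | _, _ => 1

theorem lab0 : Lab RR E0 := by
  constructor
  · intro s u v r h
    rcases (ru_iff _ _).1 h with ⟨rfl, rfl⟩ | ⟨rfl, rfl⟩ | ⟨rfl, rfl⟩ | ⟨rfl, rfl⟩ |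
      ⟨i, j, -, rfl, rfl⟩ <;> simp only [E0] <;> (try split_ifs) <;>
      simp [dl_mul, gen_rev, dl_one]
  · intro s u v m p q c h1 h2
    have hp : m ++ p ++ c ≠ [] ∧ m ++ q ++ c ≠ [] := by
      rcases (ru_iff _ _).1 h2 with ⟨rfl, rfl⟩ | ⟨rfl, rfl⟩ | ⟨rfl, rfl⟩ | ⟨rfl, rfl⟩ |
        ⟨i, j, -, rfl, rfl⟩ <;> simp
    have e : E0 (s ++ v ++ m) p q c = E0 (s ++ u ++ m) p q c := rfl
    rw [e]
    rcases (ru_iff _ _).1 h1 with ⟨rfl, rfl⟩ | ⟨rfl, rfl⟩ | ⟨rfl, rfl⟩ | ⟨rfl, rfl⟩ |
      ⟨i, j, -, rfl, rfl⟩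
    · simp [E0]
    · simp [E0]
    · simp only [E0, if_neg hp.1, if_neg hp.2, one_mul, mul_one]
    · simp only [E0, if_neg hp.1, if_neg hp.2, one_mul, mul_one]
    · rcases (ru_iff _ _).1 h2 with ⟨rfl, rfl⟩ | ⟨rfl, rfl⟩ | ⟨rfl, rfl⟩ | ⟨rfl, rfl⟩ |
        ⟨i', j', -, rfl, rfl⟩
      · simp [E0, gd_a]
      · simp [E0, gd_a]
      · cases c with
        | nil =>
          simp only [E0, List.append_nil, gd_l m [b] 0 (by simp), if_true]
          split_ifs
          · rw [dl_t]
            congr 2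
            simp
            ring
          · simp
        | cons x c => simp [E0, gd_b, gd_l]
      · cases c with
        | nil =>
          simp only [E0, List.append_nil, gd_l m [b] 0 (by simp), if_true]
          split_ifs
          · rw [mul_inv_eq_iff_eq_mul, mul_assoc, dl_t, inv_mul_cancel_left]
            congr 1
            simp
            ring
          · simp
        | cons x c => simp [E0, gd_b, gd_l]
      · simp only [E0, List.append_assoc, List.singleton_append, gd_l' m c i' j',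
          List.length_append, List.length_cons]
        split_ifs
        · exact dl_comm (by omega) _ _
        all_goals simp

theorem main : ∃ (t : DiagramGroup RR [a, b]) (κ : K →* DiagramGroup RR [a, b])
    (Φ : DiagramGroup RR [a, b] →* Wr), Function.Injective Φ ∧ (∀ x, Φ (κ x) = dl 0 x) ∧
    ∀ (n : ℕ) x y, Commute ((t ^ (n + 1))⁻¹ * κ x * t ^ (n + 1)) (κ y) := by
  obtain ⟨E, Re, hE, r0, r1, hQ, hΦ⟩ := univ (R := RR) [a, b]
  obtain ⟨Φ, d, hd⟩ := hΦ Wr E0 lab0
  have ra : Ru RR [a] [a, l 0] := by simp [ru_iff]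
  have rb : Ru RR [b] [l 0, b] := by simp [ru_iff]
  have rl : ∀ {i j}, i ≠ j → Ru RR [l i] [l j] := fun h => by simpa [ru_iff] using h
  let L : List (Fin 4) → Fin 4 → Fin 4 → List (Fin 4) → DiagramGroup RR [a, b] :=
    fun u i j v => if i = j then 1 else E (a :: u.map l) [l i] [l j] (v.map l ++ [b])
  obtain ⟨c, t, k, c0, c1, c2, c3, c4, ht, k0, hk⟩ := core
    (fun u => E [] [a] [a, l 0] (u.map l ++ [b])) (fun u => E (a :: u.map l) [b] [l 0, b] []) L
    (fun _ _ _ => if_pos rfl)
    (fun u i j v => by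
      by_cases h : i = j
      · simp [L, h]
      · simpa [L, h] using hE.sq [] _ _ (u.map l) _ _ (v.map l ++ [b]) ra (rl h))
    (fun u i j v m n z => by
      by_cases h : i = j
      · simp [L, h]
      by_cases h' : m = n
      · simp [L, h']
      simpa [L, h, h'] using hE.sq (a :: u.map l) _ _ (v.map l) _ _ (z.map l ++ [b]) (rl h) (rl h'))
    (fun u i j v => by
      by_cases h : i = j
      · simp [L, h]
      simpa [L, h] using hE.sq (a :: u.map l) _ _ (v.map l) _ _ [] (rl h) rb)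
    (fun u => by simpa using hE.sq [] _ _ (u.map l) _ _ [] ra rb)
  let κ : K →* DiagramGroup RR [a, b] := FreeGroup.lift fun p => k p.1.1 p.1.2
  have r2 : Re [a, l 0, b] := r1 [] _ _ [b] ra r0
  have r3 : ∀ i, Re [a, l i, b] := fun i => by
    by_cases h : 0 = i
    · exact h ▸ r2
    · exact r1 [a] _ _ [b] (rl h) r2
  have p1 := hd [] _ _ [b] ra r0
  have p2 := hd [a] _ _ [] rb r0
  have p3 : ∀ i j, Φ (L [] i j []) = d [a, l i, b] * dl 0 (gen i j) * (d [a, l j, b])⁻¹ := by
    intro i j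
    by_cases h : i = j
    · have : gen j j = 1 := by simp [gen]
      simp [L, h, this, dl_one]
    · simpa [L, h, E0, gd] using hd [a] _ _ [b] (rl h) (r3 i)
  have g0 : ∀ i, gen 0 i = 1 := fun i => by simp [gen]
  let Ψ := (MulAut.conj (d [a, b])⁻¹).toMonoidHom.comp Φ
  have hΨ : ∀ x, Ψ x = (d [a, b])⁻¹ * Φ x * (d [a, b])⁻¹⁻¹ := fun _ => rfl
  have q0 : ∀ i j, Ψ (k i j) = dl 0 (gen i j) := by
    intro i j
    simp only [List.map_nil, List.nil_append] at hk
    simp [hΨ, hk, p1, p3, g0, dl_one, E0, mul_assoc]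
  have q1 : ∀ x, Ψ (κ x) = dl 0 x := by
    intro x
    induction x using FreeGroup.induction_on with
    | C1 => simp [dl_one]
    | of p => simp [κ, q0, gen, p.2]
    | inv_of p h => rw [map_inv, map_inv, h, inv_eq_iff_mul_eq_one, dl_mul, mul_inv_cancel, dl_one]
    | mul x y h1 h2 => rw [map_mul, map_mul, h1, h2, dl_mul]
  have q2 : Ψ t = t0 := by
    simp only [List.map_nil, List.nil_append] at ht
    simp [hΨ, ht, p1, p2, E0, mul_assoc]
  have cm : ∀ (n : ℕ) x y, Commute ((t ^ (n + 1))⁻¹ * κ x * t ^ (n + 1)) (κ y) := by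
    intro n x y
    induction x using FreeGroup.induction_on with
    | C1 => simp
    | of p =>
      induction y using FreeGroup.induction_on with
      | C1 => simp
      | of q => simpa only [κ, FreeGroup.lift_apply_of] using c4 n _ _ _ _
      | inv_of q h => simpa only [map_inv] using h.inv_right
      | mul x y h1 h2 => simpa only [map_mul] using h1.mul_right h2
    | inv_of p h => simpa [mul_assoc] using h.inv_left
    | mul x y h1 h2 => simpa [mul_assoc] using h1.mul_left h2
  refine ⟨t, κ, Ψ, wr_inj t κ cm ?_ Ψ q2 q1, q1, cm⟩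
  rw [eq_top_iff]
  intro g _
  generalize hH : Subgroup.closure ({t} ∪ Set.range κ) = H
  have tH : t ∈ H := hH ▸ Subgroup.subset_closure (Or.inl rfl)
  have kr : ∀ i j, k i j * k j i = 1 := by
    intro i j
    have : L [] i j [] * L [] j i [] = 1 := by
      by_cases h : i = j
      · simp [L, h]
      · simpa [L, h, Ne.symm h] using hE.rev _ _ _ _ (rl h)
    rw [hk, hk]
    simp only [mul_assoc, inv_mul_cancel_left, mul_inv_rev]
    rw [← mul_assoc (L [] i j []), this]
    group
  have kH : ∀ i j, k i j ∈ H := by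
    have : ∀ i j, i < j → k i j ∈ H := by
      intro i j h
      by_cases h0 : i = 0
      · rw [h0, k0]
        exact one_mem _
      · exact hH ▸ Subgroup.subset_closure (Or.inr
          ⟨FreeGroup.of ⟨(i, j), Fin.pos_iff_ne_zero.2 h0, h⟩, by simp [κ]⟩)
    intro i j
    rcases lt_trichotomy i j with h | rfl | h
    · exact this _ _ h
    · simp [hk, L, one_mem]
    · rw [eq_inv_of_mul_eq_one_left (kr i j)]
      exact inv_mem (this _ _ h)
  obtain ⟨u, hu, hg⟩ := hQ (fun x g => ∃ u : List (Fin 4), x = a :: (u.map l ++ [b]) ∧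
    g * (c u)⁻¹ ∈ H) ⟨[], rfl, by simp [c0]⟩ (by
      rintro s u v r g h ⟨w, hw, hg⟩
      have hr := eq_inv_of_mul_eq_one_left (hE.rev s u v r h)
      rcases (ru_iff _ _).1 h with ⟨rfl, rfl⟩ | ⟨rfl, rfl⟩ | ⟨rfl, rfl⟩ | ⟨rfl, rfl⟩ |
        ⟨i, j, hij, rfl, rfl⟩ <;>
      simp only [List.append_assoc, List.cons_append, List.nil_append] at hw <;>
      rcases parse hw with ⟨rfl, h1, h2⟩ | ⟨u1, m, u2, rfl, rfl, h1, h2⟩ | ⟨rfl, h1, h2⟩ <;>
      (try cases h1) <;> (try cases h2)
      · exact ⟨0 :: w, by simp, by simpa [c1, mul_assoc] using hg⟩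
      · cases w with
        | nil => simp at h2
        | cons m w =>
          simp only [List.map_cons, List.cons_append, List.cons.injEq, l.injEq] at h2
          obtain ⟨rfl, rfl⟩ := h2
          exact ⟨w, by simp, by simpa [c1, mul_assoc, hr] using hg⟩
      · refine ⟨w ++ [0], by simp, ?_⟩
        have := mul_mem hg tH
        rw [← mul_inv_eq_iff_eq_mul.2 (c2 w)] at this
        simpa only [mul_assoc, inv_mul_cancel_left] using this
      · cases u2 with
        | cons m w => simp at h2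
        | nil =>
          simp only [List.map_nil, List.nil_append, List.cons.injEq, true_and] at h2
          subst h2
          refine ⟨u1, by simp, ?_⟩
          have := mul_mem hg (inv_mem tH)
          rw [← mul_inv_eq_iff_eq_mul.2 (c2 u1)] at this
          simpa [hr, mul_assoc] using this
      · refine ⟨u1 ++ j :: u2, by simp, ?_⟩
        have := mul_mem hg (mul_mem (mul_mem (inv_mem (pow_mem tH u2.length)) (kH i j))
          (pow_mem tH u2.length))
        rw [← mul_inv_eq_iff_eq_mul.2 (c3 u1 i j u2)] at this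
        simpa [L, hij, mul_assoc] using this) g
  cases u with
  | nil => simpa [c0] using hg
  | cons m u => simp at hu

theorem noF (φ : ThompsonF →* DiagramGroup RR [a, b]) : ¬ Function.Injective φ := by
  intro hφ
  obtain ⟨-, -, Φ, hΦ, -⟩ := main
  obtain ⟨g, h, t, n1, n2, n3, n4⟩ := thompson
  let ψ := Φ.comp φ
  obtain ⟨e1, e2, e3⟩ := n4 _ (RegularWreathProduct.rightHom.comp ψ)
  change (ψ _).right = 1 at e1 e2 e3
  refine n1 (hΦ.comp hφ ?_)
  change ψ (g * h) = ψ (h * g)
  ext x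
  · have a2 := congrArg (fun z => z.left x) (n2.map ψ).eq
    have a3 := congrArg (fun z => z.left x) (n3.map ψ).eq
    simp only [map_mul, map_inv, RegularWreathProduct.mul_left, RegularWreathProduct.mul_right,
      RegularWreathProduct.inv_left, RegularWreathProduct.inv_right, e1, e2, e3, inv_one, one_mul,
      mul_one, Pi.mul_apply, Pi.inv_apply] at a2 a3 ⊢
    exact (free_qi a2 a3).eq
  · simp [e1, e2]

theorem pres : RR.Finite ∧ ∀ p ∈ RR, p.1 ≠ [] ∧ p.2 ≠ [] ∧ p.swap ∉ RR := by
  constructor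
  · refine Set.Finite.union (Set.toFinite _) ?_
    exact (Set.finite_range fun q : Fin 4 × Fin 4 => ([l q.1], [l q.2])).subset
      fun _ ⟨i, j, _, h⟩ => ⟨(i, j), h.symm⟩
  · rintro p ((rfl | rfl) | ⟨i, j, h, rfl⟩) <;> simp [RR]
    exact h.le

theorem elts : ∃ g h t : DiagramGroup RR [a, b], ¬ Commute g h ∧
    ∀ k : ℕ, Commute g ((t ^ (k + 1))⁻¹ * h * t ^ (k + 1)) := by
  obtain ⟨t, κ, Φ, -, h1, h2⟩ := main
  refine ⟨κ (FreeGroup.of ⟨(1, 2), by decide⟩), κ (FreeGroup.of ⟨(2, 3), by decide⟩), t,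
    fun h => ?_, fun k => (h2 k _ _).symm⟩
  have := congrArg (fun z => (z.left (ofAdd 0)).toWord) (h.map Φ).eq
  simp only [h1, dl_mul] at this
  simp only [dl, Pi.mulSingle_eq_same] at this
  revert this
  decide

end Pool.Agent.H.MP_f02a84_al
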